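import Pool.Agent.Y947.RL.Stm4
import Pool.Agent.Y620.RL.FK
import Pool.Agent.Y947.RL.Fin
import Pool.Agent.Y947.DL.Poly

/-!
# Project RL: the mean of the logarithmic Mahler measures is degree times height
-/

set_option autoImplicit false

namespace Pool.Agent.Y433.RL

open Finset Polynomial Module IntermediateField
open Pool.Agent.H388SL Pool.Agent.Y947.DL Pool.Agent.Y947.RL Pool.Agent.Y620.RL

lemma lam_eq {K : Type} [Field K] [NumberField K] [Algebra K ℂ] (α : K) (hα : IsIntegral ℤ α) :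
    lam α * (minpoly ℤ (algebraMap K ℂ α)).natDegree =
      finrank ℚ K * Real.log (MM (minpoly ℤ (algebraMap K ℂ α))) := by
  have hmin : minpoly ℤ (algebraMap K ℂ α) = minpoly ℤ α :=
    minpoly.algebraMap_eq (A := ℤ) (algebraMap K ℂ).injective α
  rw [hmin]
  obtain ⟨hNF, hrep⟩ := exists_rep (minpoly ℤ α) (minpoly.irreducible hα) (minpoly.monic hα) α
    (minpoly.aeval ℤ α)
  have h1 : lam α = finrank (adjoin ℚ {α}) K * lam (AdjoinSimple.gen ℚ α) := by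
    have h1 := sum_embeddings' α (fun z => Real.log (max 1 ‖z‖))
    rw [nsmul_eq_mul] at h1
    exact h1
  have h2 : finrank ℚ (adjoin ℚ {α}) * finrank (adjoin ℚ {α}) K = finrank ℚ K :=
    finrank_mul_finrank ℚ (adjoin ℚ {α}) K
  rw [h1, hrep.log_MM, ← h2, ← hrep.fin]
  push_cast
  ring

/-- the abstract part -/
lemma prodf (hTR : S_TR) (m : ℕ) (hm : 0 < m) (F : ℤ[X][X]) (hF : F.Monic) (K : Type) [Field K]
    [NumberField K]
    (ζ α : K) (ι : K →+* ℂ) (hζ : IsPrimitiveRoot (ι ζ) m)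
    (hα : (sp (ι ζ) F).eval (ι α) = 0)
    (gen : ∀ σ τ : K →ₐ[ℚ] ℂ, σ ζ = τ ζ → σ α = τ α → σ = τ)
    (hd : finrank ℚ K = Nat.totient m * F.natDegree) : IsPrimitiveRoot ζ m ∧ IsIntegral ℤ α ∧
    ∀ ω : ℂ, IsPrimitiveRoot ω m → sp ω F = ∏ τ ∈ cls ζ ω, (X - C (τ α)) := by
  have hζK : IsPrimitiveRoot ζ m := hζ.of_map_of_injective ι.injective
  have hαK : (sp ζ F).eval α = 0 := by
    apply ι.injective
    rw [← sp_eval, hα, map_zero]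
  have hσ : ∀ σ : K →ₐ[ℚ] ℂ, (sp (σ ζ) F).eval (σ α) = 0 := by
    intro σ
    have h := sp_eval (σ : K →+* ℂ) ζ α F
    rw [hαK, map_zero] at h
    exact h
  refine ⟨hζK, ?_, fun ω hω => ?_⟩
  · have hζi : IsIntegral ℤ ζ := hζK.isIntegral hm
    have h1 : IsIntegral (integralClosure ℤ K) α := by
      refine ⟨sp (⟨ζ, hζi⟩ : integralClosure ℤ K) F, sp_monic _ hF, ?_⟩
      rw [← Polynomial.eval_map, sp_map]
      exact hαK
    exact isIntegral_trans α h1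
  · refine prod_eq _ _ ?_ _ (sp_monic _ hF) ?_ ?_
    · intro σ h1 τ h2 h3
      simp only [cls, Finset.coe_filter, Finset.mem_univ, true_and, Set.mem_ofPred_eq] at h1 h2
      exact gen σ τ (h1.trans h2.symm) h3
    · intro τ hτ
      have h1 : τ ζ = ω := by
        simpa [cls] using hτ
      rw [← h1]
      exact hσ τ
    · rw [sp_degree _ hF]
      have h1 := (hTR K m ζ hm hζK).2.2 ω hω
      rw [hd, mul_comm] at h1
      exact (Nat.eq_of_mul_eq_mul_left (Nat.totient_pos.2 hm) h1).symm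

theorem hgt_mean : S_TR → T_HGT := by
  intro hTR m F hF w hwp z hz0
  have hm := hF.hm
  have hwi : IsIntegral ℚ w := (hwp.isIntegral hm).tower_top
  have hwQ : w ∈ QAb := subset_adjoin ℚ _ ⟨m, hm, hwp.pow_eq_one⟩
  have hle : ℚ⟮w⟯ ≤ QAb := adjoin_simple_le_iff.2 hwQ
  set g : ℚ⟮w⟯ := AdjoinSimple.gen ℚ w with hg
  have hgw : algebraMap ℚ⟮w⟯ ℂ g = w := AdjoinSimple.algebraMap_gen ℚ w
  have hmon : (sp g F).Monic := sp_monic g hF.monic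
  have hirr : Irreducible (sp g F) := by
    have h1 : (sp g F).map ((inclusion hle : ℚ⟮w⟯ →ₐ[ℚ] QAb) : ℚ⟮w⟯ →+* QAb) =
        sp (⟨w, hwQ⟩ : QAb) F := by
      rw [sp_map]
      rfl
    refine Polynomial.Monic.irreducible_of_irreducible_map
      ((inclusion hle : ℚ⟮w⟯ →ₐ[ℚ] QAb) : ℚ⟮w⟯ →+* QAb) (sp g F) hmon ?_
    rw [h1]
    refine hF.irr _ ?_
    exact IsPrimitiveRoot.of_map_of_injective (f := algebraMap QAb ℂ)
      (show IsPrimitiveRoot (algebraMap QAb ℂ ⟨w, hwQ⟩) m from hwp) (algebraMap QAb ℂ).injective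
  have hgz : aeval z (sp g F) = 0 := by
    rw [aeval_def, ← Polynomial.eval_map, sp_map, hgw]
    exact hz0
  have hzi : IsIntegral ℚ⟮w⟯ z := ⟨sp g F, hmon, by rw [← aeval_def]; exact hgz⟩
  have hmin : minpoly ℚ⟮w⟯ z = sp g F :=
    (minpoly.eq_of_irreducible_of_monic hirr hgz hmon).symm
  have : FiniteDimensional ℚ ℚ⟮w⟯ := adjoin.finiteDimensional hwi
  have : FiniteDimensional ℚ⟮w⟯ ℚ⟮w⟯⟮z⟯ := adjoin.finiteDimensional hzi
  have hfd : FiniteDimensional ℚ ℚ⟮w⟯⟮z⟯ := Module.Finite.trans ℚ⟮w⟯ ℚ⟮w⟯⟮z⟯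
  have hNF : NumberField ℚ⟮w⟯⟮z⟯ := { to_charZero := inferInstance, to_finiteDimensional := hfd }
  have hfr : finrank ℚ ℚ⟮w⟯⟮z⟯ = Nat.totient m * F.natDegree := by
    have h1 := Module.finrank_mul_finrank ℚ ℚ⟮w⟯ ℚ⟮w⟯⟮z⟯
    rw [adjoin.finrank hwi, adjoin.finrank hzi, hmin, sp_degree g hF.monic,
      ← cyclotomic_eq_minpoly_rat hwp hm, natDegree_cyclotomic] at h1
    exact h1.symm
  have hgen : ∀ σ τ : ℚ⟮w⟯⟮z⟯ →ₐ[ℚ] ℂ,
      σ (algebraMap ℚ⟮w⟯ ℚ⟮w⟯⟮z⟯ g) = τ (algebraMap ℚ⟮w⟯ ℚ⟮w⟯⟮z⟯ g) →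
      σ (AdjoinSimple.gen ℚ⟮w⟯ z) = τ (AdjoinSimple.gen ℚ⟮w⟯ z) → σ = τ := by
    intro σ τ h1 h2
    have h3 : (σ : ℚ⟮w⟯⟮z⟯ →+* ℂ) = (τ : ℚ⟮w⟯⟮z⟯ →+* ℂ) := by
      refine ext_of (L := ℚ⟮w⟯) (AdjoinSimple.gen ℚ⟮w⟯ z) (fun x => ?_) _ _ ?_ h2
      · obtain ⟨p, hp⟩ := (adjoin.powerBasis hzi).exists_eq_aeval' x
        rw [adjoin.powerBasis_gen] at hp
        exact ⟨p, hp⟩
      · refine ext_of (L := ℚ) g (fun x => ?_) _ _ (Subsingleton.elim _ _) h1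
        obtain ⟨p, hp⟩ := (adjoin.powerBasis hwi).exists_eq_aeval' x
        rw [adjoin.powerBasis_gen] at hp
        exact ⟨p, hp⟩
    ext x
    exact congrFun (congrArg DFunLike.coe h3) x
  have hαz : algebraMap ℚ⟮w⟯⟮z⟯ ℂ (AdjoinSimple.gen ℚ⟮w⟯ z) = z :=
    AdjoinSimple.algebraMap_gen ℚ⟮w⟯ z
  have hζw : algebraMap ℚ⟮w⟯⟮z⟯ ℂ (algebraMap ℚ⟮w⟯ ℚ⟮w⟯⟮z⟯ g) = w := by
    rw [← IsScalarTower.algebraMap_apply, hgw]
  obtain ⟨hζ, hα, hprod⟩ := prodf hTR m hm F hF.monic ℚ⟮w⟯⟮z⟯ (algebraMap ℚ⟮w⟯ ℚ⟮w⟯⟮z⟯ g)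
    (AdjoinSimple.gen ℚ⟮w⟯ z) (algebraMap ℚ⟮w⟯⟮z⟯ ℂ) (by rw [hζw]; exact hwp)
    (by rw [hζw, hαz]; exact hz0) hgen hfr
  have hlam := lam_eq (AdjoinSimple.gen ℚ⟮w⟯ z) hα
  rw [hαz, hfr] at hlam
  rw [mean_mahler hm hζ hprod]
  have hzI : IsIntegral ℤ z := by
    rw [← hαz]
    exact hα.map (algebraMap ℚ⟮w⟯⟮z⟯ ℂ).toIntAlgHom
  have hdeg : (0 : ℝ) < (minpoly ℤ z).natDegree := by
    exact_mod_cast minpoly.natDegree_pos hzI
  have hφ : (0 : ℝ) < Nat.totient m := by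
    exact_mod_cast Nat.totient_pos.2 hm
  have hMM : hgt z = Real.log (MM (minpoly ℤ z)) / (minpoly ℤ z).natDegree := rfl
  rw [hMM, div_eq_iff hφ.ne']
  have h5 : lam (AdjoinSimple.gen ℚ⟮w⟯ z) =
      (((Nat.totient m * F.natDegree : ℕ) : ℝ) * Real.log (MM (minpoly ℤ z))) /
        (minpoly ℤ z).natDegree := by
    rw [eq_div_iff hdeg.ne']
    exact hlam
  rw [h5]
  push_cast
  ring

end Pool.Agent.Y433.RL
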